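import Pool.Agent.W89.PW.Defs
import Pool.Agent.H181R5.PB_T9

/-! Task PW-8 of the palindrome project with weighted digits: digit facts. -/

set_option autoImplicit false

namespace Pool.Agent.W571.PW.Dig

open Finset Pool.Agent.W89.PW
open Pool.Agent.H181R5.PBT9 (pvl digits_pvl lst lst_reverse pvl_inj)

/-- the digits, with the digit `1` in the middle -/
def dg (b s t L : ℕ) (hb : 1 < b) (hst : s + t = b + 1) (m : Fin L → Fin s × Fin t) :
    Fin (L + 1) → Fin b :=
  Fin.cons ⟨1, hb⟩ fun c => ⟨((m c).1 : ℕ) + ((m c).2 : ℕ), by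
    have h1 := (m c).1.2
    have h2 := (m c).2.2
    omega⟩

lemma pv_eq {b s t L : ℕ} (hb : 1 < b) (hst : s + t = b + 1) (m : Fin L → Fin s × Fin t) :
    pv b s t L m = pvl b 1 (L + 1) (dg b s t L hb hst m) := by
  unfold pv pvl
  rw [Fin.sum_univ_succ]
  have h0 : Pool.Agent.H39R3.PB.fr b (L + 1) ((0 : Fin (L + 1)) : ℕ) = b ^ (L + 1) := by
    simp [Pool.Agent.H39R3.PB.fr]
  have h1 : ((dg b s t L hb hst m 0 : Fin b) : ℕ) = 1 := rfl
  have h2 : ∑ c : Fin L, (((m c).1 : ℕ) + ((m c).2 : ℕ)) * fr b L c =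
      ∑ c : Fin L, ((dg b s t L hb hst m c.succ : Fin b) : ℕ) *
        Pool.Agent.H39R3.PB.fr b (L + 1) ((c.succ : Fin (L + 1)) : ℕ) := by
    refine sum_congr rfl fun c _ => ?_
    rw [fr_eq, Fin.val_succ]
    rfl
  rw [h0, h1, h2]
  ring

theorem main : Pool.Agent.W89.PW.TaskDig := by
  intro b s t L hb hs hst' hst
  have hb1 : 1 < b := by omega
  have hdig : ∀ m : Fin L → Fin s × Fin t, Nat.digits b (pv b s t L m) =
      lst b 1 (L + 1) (dg b s t L hb1 hst m) := fun m => by
    rw [pv_eq hb1 hst, digits_pvl (by omega) le_rfl hb1 (L + 1) (by omega)]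
  refine ⟨fun m => ⟨?_, ?_, ?_, ?_⟩, fun n => ?_⟩
  · unfold pv
    have : 0 < b ^ (L + 1) := by positivity
    omega
  · have h := Nat.lt_base_pow_length_digits (b := b) (m := pv b s t L m) (by omega)
    rw [hdig, lst, List.length_map, List.length_range] at h
    rwa [show 2 * (L + 1) + 1 = 2 * L + 3 by ring] at h
  · rw [hdig, lst_reverse]
  · -- coprime
    have hmodb : ∃ k, pv b s t L m = b * k + 1 := by
      have h1 : b ∣ ∑ c : Fin L, (((m c).1 : ℕ) + ((m c).2 : ℕ)) * fr b L c := by
        refine dvd_sum fun c _ => Dvd.dvd.mul_left ?_ _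
        unfold fr
        exact dvd_add (dvd_pow_self b (by omega)) (dvd_pow_self b (by have := c.2; omega))
      obtain ⟨k, hk⟩ := h1
      refine ⟨b ^ (2 * L + 1) + b ^ L + k, ?_⟩
      unfold pv
      rw [hk]
      ring
    rw [Nat.coprime_mul_iff_right]
    constructor
    · rw [Nat.coprime_two_right]
      rcases Nat.even_or_odd b with he | ho
      · obtain ⟨k, hk⟩ := hmodb
        rw [hk]
        exact (he.mul_right k).add_one
      · unfold pv
        have h1 : Even (∑ c : Fin L, (((m c).1 : ℕ) + ((m c).2 : ℕ)) * fr b L c) := by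
          refine Finset.even_sum _ fun c _ => ?_
          refine Even.mul_left ?_ _
          unfold fr
          exact (ho.pow).add_odd (ho.pow)
        refine Even.add_one ?_ |>.add_even h1
        exact (ho.pow).add_odd (ho.pow)
    · obtain ⟨k, hk⟩ := hmodb
      rw [hk, mul_comm, Nat.coprime_mul_right_add_left]
      exact Nat.coprime_one_left b
  · have hinj : Set.InjOn (fun (m : Fin L → Fin s × Fin t) (c : Fin L) => (m c).1)
        ((univ : Finset (Fin L → Fin s × Fin t)).filter (fun m => pv b s t L m = n)) := by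
      intro m hm m' hm' h
      rw [mem_coe, mem_filter] at hm hm'
      have h1 : pv b s t L m = pv b s t L m' := hm.2.trans hm'.2.symm
      rw [pv_eq hb1 hst, pv_eq hb1 hst] at h1
      have h2 := pvl_inj (b := b) (by omega) (L + 1) (by omega)
        (show (1, dg b s t L hb1 hst m) ∈ {x : ℕ × (Fin (L + 1) → Fin b) | x.1 < b} from hb1)
        (show (1, dg b s t L hb1 hst m') ∈ {x : ℕ × (Fin (L + 1) → Fin b) | x.1 < b} from hb1) h1
      have h3 : dg b s t L hb1 hst m = dg b s t L hb1 hst m' := (Prod.ext_iff.1 h2).2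
      funext c
      have h4 : ((m c).1 : ℕ) + ((m c).2 : ℕ) = ((m' c).1 : ℕ) + ((m' c).2 : ℕ) :=
        congrArg Fin.val (congrFun h3 c.succ)
      have h5 : (m c).1 = (m' c).1 := congrFun h c
      have h6 : ((m c).1 : ℕ) = ((m' c).1 : ℕ) := congrArg Fin.val h5
      refine Prod.ext h5 (Fin.ext ?_)
      omega
    have h := Finset.card_le_card_of_injOn (t := (univ : Finset (Fin L → Fin s))) _
      (fun m _ => mem_univ _) hinj
    simpa using h

end Pool.Agent.W571.PW.Dig
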